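import Pool.Agent.H.MP_4b0b35_an.A

set_option autoImplicit false

namespace Pool.Agent.Results.MP_4b0b35_an.Spec

theorem result (H : Type) [NormedAddCommGroup H] [InnerProductSpace ℂ H] [CompleteSpace H]
    (b : HilbertBasis ℕ ℂ H) (ψ φ : ℂ → ℂ) (hψ : DifferentiableOn ℂ ψ (Metric.ball 0 1))
    (hφ : DifferentiableOn ℂ φ (Metric.ball 0 1)) (hmaps : ∀ z, ‖z‖ < 1 → ‖φ z‖ < 1)
    (hfix : ∀ z, ‖z‖ < 1 → φ z ≠ z) (T : H →L[ℂ] H)
    (hT : ∀ (f : H) (z : ℂ), ‖z‖ < 1 →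
      ∑' n, inner ℂ (b n) (T f) * z ^ n = ψ z * ∑' n, inner ℂ (b n) f * φ z ^ n)
    (hc : IsCompactOperator T) : spectrum ℂ T = {0} := by
  let e := b.repr.toContinuousLinearEquiv
  rw [← AlgEquiv.spectrum_eq e.conjContinuousAlgEquiv.toAlgEquiv T]
  have h1 := (hc.comp_clm e.symm.toContinuousLinearMap).clm_comp e.toContinuousLinearMap
  refine Pool.Agent.H.MP_4b0b35_an.main hψ hφ hmaps hfix h1 fun f z hz => ?_
  rw [← (Pool.Agent.H.MP_4b0b35_an.ev_eq hz _).tsum_eq, ← (Pool.Agent.H.MP_4b0b35_an.ev_eq (hmaps z hz) _).tsum_eq]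
  have := hT (b.repr.symm f) z hz
  simp only [← b.repr_apply_apply, LinearIsometryEquiv.apply_symm_apply] at this
  exact this

end Pool.Agent.Results.MP_4b0b35_an.Spec
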